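import Pool.Agent.helper37.CZ.Spec

/-!
# Project cz, row DTP: determinants of perturbations of the identity
-/

set_option autoImplicit false

namespace Pool.Agent.CZ

/-- `|det M| ≤ ∏_i ∑_j |M_ij|` -/
theorem DTP_leib {n : Type} [Fintype n] [DecidableEq n] (M : Matrix n n ℂ) :
    ‖M.det‖ ≤ ∏ i, ∑ j, ‖M i j‖ := by
  rw [← Matrix.det_transpose, Matrix.det_apply']
  refine (norm_sum_le _ _).trans ?_
  have h1 : ∏ i, ∑ j, ‖M i j‖ = ∑ f : n → n, ∏ i, ‖M i (f i)‖ := by
    rw [Finset.prod_univ_sum, Fintype.piFinset_univ]
  rw [h1]
  have h2 : ∑ σ : Equiv.Perm n, ‖((Equiv.Perm.sign σ : ℤ) : ℂ) * ∏ i, (Matrix.transpose M) (σ i) i‖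
      = ∑ σ : Equiv.Perm n, ∏ i, ‖M i (σ i)‖ := by
    apply Finset.sum_congr rfl
    intro σ _
    rw [norm_mul, norm_prod]
    have h3 : ‖((Equiv.Perm.sign σ : ℤ) : ℂ)‖ = 1 := by
      rcases Int.units_eq_one_or (Equiv.Perm.sign σ) with h | h
      · rw [h]; simp
      · rw [h]; simp
    rw [h3, one_mul]
    rfl
  rw [h2]
  have h4 : ∑ σ : Equiv.Perm n, ∏ i, ‖M i (σ i)‖
      = ∑ f ∈ Finset.univ.image (fun σ : Equiv.Perm n => (σ : n → n)), ∏ i, ‖M i (f i)‖ := by
    rw [Finset.sum_image]
    intro σ _ τ _ h
    exact Equiv.coe_fn_injective h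
  rw [h4]
  apply Finset.sum_le_sum_of_subset_of_nonneg (Finset.subset_univ _)
  intro f _ _
  exact Finset.prod_nonneg fun i _ => norm_nonneg _

/-- row sums of `1 + E` -/
theorem DTP_row {n : Type} [Fintype n] [DecidableEq n] (E : Matrix n n ℂ) (i : n) :
    ∑ j, ‖(1 + E) i j‖ ≤ 1 + ∑ j, ‖E i j‖ := by
  have h1 : ∀ j, ‖(1 + E) i j‖ ≤ (if i = j then 1 else 0) + ‖E i j‖ := by
    intro j
    rw [Matrix.add_apply, Matrix.one_apply]
    refine (norm_add_le _ _).trans ?_
    by_cases h : i = j
    · rw [if_pos h, if_pos h, norm_one]
    · rw [if_neg h, if_neg h, norm_zero]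
  refine (Finset.sum_le_sum fun j _ => h1 j).trans ?_
  rw [Finset.sum_add_distrib, Finset.sum_ite_eq]
  simp

theorem DTP : DTP_stmt := by
  intro n _ _ E F
  constructor
  · refine (DTP_leib (1 + E)).trans ?_
    rw [Real.exp_sum]
    apply Finset.prod_le_prod
    · intro i _
      exact Finset.sum_nonneg fun j _ => norm_nonneg _
    · intro i _
      refine (DTP_row E i).trans ?_
      rw [add_comm]
      exact Real.add_one_le_exp _
  · -- change the rows one after the other
    set e : n → ℝ := fun i => ∑ j, ‖E i j‖ with he
    set f : n → ℝ := fun i => ∑ j, ‖F i j‖ with hf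
    have he0 : ∀ i, 0 ≤ e i := fun i => Finset.sum_nonneg fun j _ => norm_nonneg _
    have hf0 : ∀ i, 0 ≤ f i := fun i => Finset.sum_nonneg fun j _ => norm_nonneg _
    let M : Finset n → Matrix n n ℂ := fun s =>
      Matrix.of fun i => if i ∈ s then (1 + E) i else (1 + F) i
    have hMrow : ∀ s i, ∑ j, ‖M s i j‖ ≤ Real.exp (e i + f i) := by
      intro s i
      have h2 : 1 + (e i + f i) ≤ Real.exp (e i + f i) := by
        rw [add_comm 1]
        exact Real.add_one_le_exp _
      refine le_trans ?_ h2
      by_cases h : i ∈ s
      · have h3 : ∀ j, M s i j = (1 + E) i j := by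
          intro j
          show (if i ∈ s then (1 + E) i else (1 + F) i) j = _
          rw [if_pos h]
        rw [Finset.sum_congr rfl fun j _ => by rw [h3 j]]
        have h4 := DTP_row E i
        have h5 := hf0 i
        linarith
      · have h3 : ∀ j, M s i j = (1 + F) i j := by
          intro j
          show (if i ∈ s then (1 + E) i else (1 + F) i) j = _
          rw [if_neg h]
        rw [Finset.sum_congr rfl fun j _ => by rw [h3 j]]
        have h4 := DTP_row F i
        have h5 := he0 i
        linarith
    have hbd : ∀ (s : Finset n) (a : n) (w : n → ℂ), ‖((M s).updateRow a w).det‖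
        ≤ (∑ j, ‖w j‖) * Real.exp (∑ i, e i + ∑ i, f i) := by
      intro s a w
      refine (DTP_leib _).trans ?_
      rw [← Finset.mul_prod_erase Finset.univ _ (Finset.mem_univ a)]
      have h1 : ∑ j, ‖(M s).updateRow a w a j‖ = ∑ j, ‖w j‖ := by
        apply Finset.sum_congr rfl
        intro j _
        rw [Matrix.updateRow_self]
      rw [h1]
      apply mul_le_mul_of_nonneg_left _ (Finset.sum_nonneg fun j _ => norm_nonneg _)
      have h2 : ∏ i ∈ Finset.univ.erase a, ∑ j, ‖(M s).updateRow a w i j‖
          ≤ ∏ i ∈ Finset.univ.erase a, Real.exp (e i + f i) := by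
        apply Finset.prod_le_prod
        · intro i _
          exact Finset.sum_nonneg fun j _ => norm_nonneg _
        · intro i hi
          have h3 : ∀ j, (M s).updateRow a w i j = M s i j := by
            intro j
            rw [Matrix.updateRow_ne (Finset.ne_of_mem_erase hi)]
          rw [Finset.sum_congr rfl fun j _ => by rw [h3 j]]
          exact hMrow s i
      refine h2.trans ?_
      rw [← Real.exp_sum, ← Finset.sum_add_distrib]
      apply Real.exp_le_exp.2
      apply Finset.sum_le_sum_of_subset_of_nonneg (Finset.erase_subset _ _)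
      intro i _ _
      exact add_nonneg (he0 i) (hf0 i)
    have hstep : ∀ (s : Finset n) (a : n), a ∉ s →
        (M (insert a s)).det - (M s).det = ((M s).updateRow a (fun j => E a j - F a j)).det := by
      intro s a ha
      have h1 : M (insert a s) = (M s).updateRow a ((fun j => E a j - F a j) + (1 + F) a) := by
        ext i j
        by_cases h : i = a
        · subst h
          rw [Matrix.updateRow_self]
          show (if i ∈ insert i s then (1 + E) i else (1 + F) i) j = _
          rw [if_pos (Finset.mem_insert_self i s), Pi.add_apply, Matrix.add_apply, Matrix.add_apply]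
          ring
        · rw [Matrix.updateRow_ne h]
          show (if i ∈ insert a s then (1 + E) i else (1 + F) i) j
            = (if i ∈ s then (1 + E) i else (1 + F) i) j
          by_cases h2 : i ∈ s
          · rw [if_pos h2, if_pos (Finset.mem_insert_of_mem h2)]
          · rw [if_neg h2, if_neg]
            intro h3
            rcases Finset.mem_insert.1 h3 with h4 | h4
            · exact h h4
            · exact h2 h4
      have h2 : M s = (M s).updateRow a ((1 + F) a) := by
        ext i j
        by_cases h : i = a
        · subst h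
          rw [Matrix.updateRow_self]
          show (if i ∈ s then (1 + E) i else (1 + F) i) j = _
          rw [if_neg ha]
        · rw [Matrix.updateRow_ne h]
      rw [h1, Matrix.det_updateRow_add, ← h2]
      ring
    have hind : ∀ s : Finset n, ‖(M s).det - (M ∅).det‖
        ≤ (∑ i ∈ s, ∑ j, ‖E i j - F i j‖) * Real.exp (∑ i, e i + ∑ i, f i) := by
      intro s
      induction s using Finset.induction_on with
      | empty => simp
      | insert a s ha ih =>
        have h1 : (M (insert a s)).det - (M ∅).det
            = ((M (insert a s)).det - (M s).det) + ((M s).det - (M ∅).det) := by ring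
        rw [h1, Finset.sum_insert ha, add_mul]
        refine (norm_add_le _ _).trans (add_le_add ?_ ih)
        rw [hstep s a ha]
        exact hbd s a _
    have hM1 : M Finset.univ = 1 + E := by
      ext i j
      show (if i ∈ Finset.univ then (1 + E) i else (1 + F) i) j = _
      rw [if_pos (Finset.mem_univ i)]
    have hM0 : M ∅ = 1 + F := by
      ext i j
      show (if i ∈ (∅ : Finset n) then (1 + E) i else (1 + F) i) j = _
      rw [if_neg (Finset.notMem_empty i)]
    have h := hind Finset.univ
    rwa [hM1, hM0] at h

end Pool.Agent.CZ
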