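import Pool.Agent.helper37.CZ.Spec

/-!
# Project cz, row TR2: smooth elements give triples
-/

set_option autoImplicit false

open scoped Matrix Topology ComplexConjugate
open Filter

namespace Pool.Agent.CZ

theorem TR2_summable (c : ℝ) (hc : 0 < c) : Summable fun j : ℤ => Real.exp (-(c * |(j : ℝ)|)) := by
  have h1 : Summable fun k : ℕ => Real.exp (-(c * (k : ℝ))) := by
    have h2 : Summable fun k : ℕ => (Real.exp (-c)) ^ k :=
      summable_geometric_of_lt_one (Real.exp_pos _).le (by rw [Real.exp_lt_one_iff]; linarith)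
    refine h2.congr fun k => ?_
    rw [← Real.exp_nat_mul]
    congr 1
    ring
  apply Summable.of_nat_of_neg
  · refine h1.congr fun k => ?_
    rw [Int.cast_natCast, abs_of_nonneg (Nat.cast_nonneg k)]
  · refine h1.congr fun k => ?_
    rw [Int.cast_neg, abs_neg, Int.cast_natCast, abs_of_nonneg (Nat.cast_nonneg k)]

theorem TR2_norm {X : Type} [TopologicalSpace X] [CompactSpace X] {A : Type} [CStarAlgebra A]
    (ι : C(X, ℂ) →⋆ₐ[ℂ] A) (u : unitary A) (f : C(X, ℂ)) (j : ℤ) : ‖ι f * up u j‖ ≤ ‖f‖ := by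
  have h1 : ‖ι f * up u j‖ = ‖ι f‖ := CStarRing.norm_mul_coe_unitary (ι f) (u ^ j)
  rw [h1]
  exact NonUnitalStarAlgHom.norm_apply_le ι f

theorem TR2 : TR2_stmt := by
  intro X _ _ A _ ι u a ha
  obtain ⟨σ, hσ, f, ⟨C, hC⟩, hrep⟩ := ha
  have hC0 : 0 ≤ C := by
    have h1 := hC 0
    have h2 : (0 : ℝ) ≤ C * Real.exp (-(σ * |((0 : ℤ) : ℝ)|)) := (norm_nonneg _).trans h1
    simpa using h2
  set t : ℤ → A := fun j => ι (f j) * up u j with ht
  let F : ℝ → ℤ → A := fun s j => ((Real.exp (s * j) : ℝ) : ℂ) • t j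
  let G : ℝ → A := fun s => ∑' j, F s j
  let b : ℤ → ℝ := fun j => C * Real.exp (-((σ / 2) * |(j : ℝ)|))
  have hb : Summable b := (TR2_summable (σ / 2) (by linarith)).mul_left C
  have hbd : ∀ s : ℝ, |s| ≤ σ / 2 → ∀ j, ‖F s j‖ ≤ b j := by
    intro s hs j
    have h1 : ‖F s j‖ = Real.exp (s * j) * ‖t j‖ := by
      show ‖((Real.exp (s * j) : ℝ) : ℂ) • t j‖ = _
      rw [norm_smul, Complex.norm_real, Real.norm_of_nonneg (Real.exp_pos _).le]
    have h2 : ‖t j‖ ≤ C * Real.exp (-(σ * |(j : ℝ)|)) := (TR2_norm ι u (f j) j).trans (hC j)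
    have h3 : s * j ≤ (σ / 2) * |(j : ℝ)| := by
      calc s * j ≤ |s * j| := le_abs_self _
        _ = |s| * |(j : ℝ)| := abs_mul _ _
        _ ≤ (σ / 2) * |(j : ℝ)| := mul_le_mul_of_nonneg_right hs (abs_nonneg _)
    rw [h1]
    calc Real.exp (s * j) * ‖t j‖
        ≤ Real.exp ((σ / 2) * |(j : ℝ)|) * (C * Real.exp (-(σ * |(j : ℝ)|))) :=
          mul_le_mul (Real.exp_le_exp.2 h3) h2 (norm_nonneg _) (Real.exp_pos _).le
      _ = C * (Real.exp ((σ / 2) * |(j : ℝ)|) * Real.exp (-(σ * |(j : ℝ)|))) := by ring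
      _ = b j := by
          show _ = C * Real.exp (-((σ / 2) * |(j : ℝ)|))
          rw [← Real.exp_add]
          congr 2
          ring
  have hsum : ∀ s : ℝ, |s| ≤ σ / 2 → HasSum (F s) (G s) := by
    intro s hs
    exact (Summable.of_norm_bounded hb (hbd s hs)).hasSum
  refine ⟨σ / 2, G, by linarith, ?_, ?_⟩
  · intro s hs0 hs
    have hs1 : |s| ≤ σ / 2 := by rw [abs_of_pos hs0]; exact hs.le
    have hs2 : |(-s)| ≤ σ / 2 := by rw [abs_neg]; exact hs1
    have h1 : HasSum (fun j => (t j, F s j, F (-s) j)) (a, G s, G (-s)) :=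
      hrep.prodMk ((hsum s hs1).prodMk (hsum (-s) hs2))
    have h2 : IsClosed ((Tri ι u s : Subalgebra ℂ (A × A × A)) : Set (A × A × A)) :=
      Subalgebra.isClosed_topologicalClosure _
    have h3 : Tendsto (fun S : Finset ℤ => ∑ j ∈ S, (t j, F s j, F (-s) j)) atTop
      (𝓝 (a, G s, G (-s))) := h1
    apply h2.mem_of_tendsto h3
    refine Eventually.of_forall fun S => ?_
    show (∑ j ∈ S, (t j, F s j, F (-s) j)) ∈ Tri ι u s
    apply sum_mem
    intro j _
    apply Subalgebra.le_topologicalClosure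
    apply Algebra.subset_adjoin
    refine ⟨f j, j, ?_⟩
    show (t j, ((Real.exp (s * j) : ℝ) : ℂ) • t j, ((Real.exp (-s * j) : ℝ) : ℂ) • t j) = _
    rw [neg_mul]
  · have h1 : Tendsto G (𝓝 0) (𝓝 (∑' j, t j)) := by
      apply tendsto_tsum_of_dominated_convergence hb
      · intro j
        have h2 : Tendsto (fun s : ℝ => ((Real.exp (s * j) : ℝ) : ℂ)) (𝓝 0) (𝓝 1) := by
          have h3 : Continuous fun s : ℝ => ((Real.exp (s * j) : ℝ) : ℂ) := by fun_prop
          have h4 := h3.tendsto 0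
          simpa using h4
        have h5 := h2.smul_const (t j)
        rwa [one_smul] at h5
      · have h6 : ∀ᶠ s : ℝ in 𝓝 0, |s| < σ / 2 := by
          have h7 : Continuous fun s : ℝ => |s| := continuous_abs
          have h8 := h7.tendsto 0
          rw [abs_zero] at h8
          exact h8.eventually_lt_const (by linarith)
        filter_upwards [h6] with s hs j
        exact hbd s hs.le j
    have h9 : ∑' j, t j = a := hrep.tsum_eq
    rwa [h9] at h1

end Pool.Agent.CZ
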